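import Pool.Agent.Helper18.NQ.Orbit
import Pool.Agent.Helper60.NQ.LemD2
import Pool.Agent.Helper74.NQ.Pairs

/-!
# The bound in one orbit (project NQ, Q3b)
-/

set_option autoImplicit false

namespace Pool.Agent.Helper18.NQ

open Finset Pool.Agent.Helper19.NF Pool.Agent.Helper74.NW Pool.Agent.Helper99.NQ

open Classical in
theorem inK_eq {n d : ℕ} {F W X : Type} [AddCommGroup F] [AddCommGroup X] [Fintype F] [Fintype W]
    (D : (Fin n → Fin d → W) → ((Fin n → Fin d → F) →+ X))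
    (U : X → Fin n → Finset W) (E : Finset X) (K : Finset (Fin n)) (x : X) :
    Pool.Agent.Helper60.NQ.inK D U E K x = inK D U E K x := rfl

/-- Lemma D. -/
theorem lemmaDq {n d : ℕ} {F W X : Type} [AddCommGroup F] [Fintype F] [Fintype W] [AddCommGroup X] [Fintype X]
    (D : (Fin n → Fin d → W) → ((Fin n → Fin d → F) →+ X)) (U : X → Fin n → Finset W) (E G : Finset X)
    (hG : G ⊆ E) (J : Finset (Fin n)) (h κ : ℕ) (ρ : ℝ) (hρ0 : 0 ≤ ρ) (hh : 0 < h)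
    (hU : ∀ x ∈ G, ∀ u ∈ J, h ≤ (U x u).card)
    (hρ : 2 ^ n * ρ ≤ ((h : ℝ) / Fintype.card W) ^ (d * J.card))
    (hin : ∀ x ∈ G, ∀ K ⊆ J, κ ≤ K.card → (inK D U E K x : ℝ) ≤ ρ * Fintype.card (Fin n → Fin d → W)) :
    (G.card : ℝ) ≤ 8 * 2 ^ n * (Fintype.card F : ℝ) ^ (d * κ) *
      ((Fintype.card W : ℝ) / (h * Fintype.card F)) ^ (d * J.card) * Fintype.card X := by
  classical
  refine Pool.Agent.Helper60.NQ.lemmaD D U E G hG J h κ ρ hρ0 hh hU hρ fun x hx K hK hc => ?_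
  rw [inK_eq]
  exact (le_of_eq (by congr)).trans (hin x hx K hK hc)

variable {n D m d S : ℕ} [NeZero m] {F B Z : Type} [Field F] [Fintype F] [AddCommGroup B] [Module F B] [Fintype B]

/-- Q3b, from the bound for the pairs. -/
theorem orbit_bound_of_pairs (g : Fin D → Equiv.Perm (Fin n)) (h1 h2 : Fin n → Fin D × Fin m)
    (cell : Fin n × Fin m → B)
    (h a : ℕ) (E : Finset (Ch n D m F B)) (V1 V2 : Ch n D m F B → Finset (B × Word D m B))
    (J : Finset (Fin n)) (κ j : ℕ) (hj : j ≤ J.card)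
    (hJ1 : ∀ x ∈ E, ∀ u ∈ J, h ≤ (left cell (V1 x) (pos g h1 u)).card)
    (hJ2 : ∀ x ∈ E, ∀ u ∈ J, h ≤ (left cell (V2 x) (pos g h2 u)).card)
    (hh : h ≤ Fintype.card (Word D m B)) (hq : Fintype.card (Word D m B) ≤ h * Fintype.card F) (η : ℝ)
    (hη1 : 1 ≤ η)
    (pairs : ∀ K K' : Finset (Fin n), 2 * a ≤ (K ∩ K').card →
      ∑ x ∈ E, (inK (flip (F := F) (d := d) g h1) (fun x u => left cell (V1 x) (pos g h1 u)) E K x : ℝ) *
          inK (flip (F := F) (d := d) g h2) (fun x u => left cell (V2 x) (pos g h2 u)) E K' x ≤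
        (Fintype.card F : ℝ) ^ (2 * d * n) * 2 ^ (n + 1) / η ^ (m * a) * Nat.card (Ch n D m F B) *
          (Nat.card (Fin n → Fin d → Word D m B) : ℝ) ^ 2) :
    (E.card : ℝ) ≤ err n m d a κ j (Fintype.card F) ((h : ℝ) / Fintype.card (Word D m B)) η *
      Nat.card (Ch n D m F B) := by
  classical
  refine orbit_bound_of g h1 h2 cell h a E V1 V2 J κ j hj hJ1 hJ2 hh hq η hη1 ?_ pairs
  intro Dd U E G hG J h κ ρ hρ0 hh hU hρ hin
  rw [Nat.card_eq_fintype_card]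
  exact lemmaDq Dd U E G hG J h κ ρ hρ0 hh hU hρ hin

/-- Q3b: the bound in one orbit. -/
theorem orbit_bound (g : Fin D → Equiv.Perm (Fin n)) (h1 h2 : Fin n → Fin D × Fin m) (cell t0 : Fin n × Fin m → B)
    (h T a : ℕ) (E : Finset (Ch n D m F B)) (V1 V2 : Ch n D m F B → Finset (B × Word D m B))
    (hE : Closed g cell t0 h T a E V1 V2) (J : Finset (Fin n)) (κ j : ℕ) (hj : j ≤ J.card)
    (hJ1 : ∀ x ∈ E, ∀ u ∈ J, h ≤ (left cell (V1 x) (pos g h1 u)).card)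
    (hJ2 : ∀ x ∈ E, ∀ u ∈ J, h ≤ (left cell (V2 x) (pos g h2 u)).card)
    (hh : h ≤ Fintype.card (Word D m B)) (hq : Fintype.card (Word D m B) ≤ h * Fintype.card F)
    (_hT : T ≤ Fintype.card (B × Word D m B)) (η : ℝ)
    (hη : η = 1 + (1 - (T : ℝ) / Fintype.card (B × Word D m B) - (h : ℝ) / Fintype.card (Word D m B)) / 2)
    (hη1 : 1 ≤ η) (_hκ : 2 * a ≤ κ) :
    (E.card : ℝ) ≤ err n m d a κ j (Fintype.card F) ((h : ℝ) / Fintype.card (Word D m B)) η *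
      Nat.card (Ch n D m F B) :=
  orbit_bound_of_pairs g h1 h2 cell h a E V1 V2 J κ j hj hJ1 hJ2 hh hq η hη1 fun K K' hK =>
    Pool.Agent.Helper74.NQ.pairs_bound' g h1 h2 cell t0 h T a E V1 V2 hE η hη hη1 K K' hK

end Pool.Agent.Helper18.NQ
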