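import Mathlib

/-!
# One direction: inputs with few incoming arrows are rare

For every `b` the group `E` acts on the inputs `Ω`. An arrow goes from `x ∈ G` to `act b e x ∈ G` if `b` is free at `x`.
If at least `H` of the `b` are free at every `x ∈ G`, and at most `H` arrows with `e ∉ small` end in every element of
`G`, then `G` is small.
-/

set_option autoImplicit false

namespace Pool.Agent.Helper18.NQ

open Finset

variable {Ω E T : Type} [Fintype Ω] [Fintype E] [Fintype T] [DecidableEq Ω] [DecidableEq E] [AddCommGroup E]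

/-- For one `b`: few elements of `G` have few elements of `G` in their orbit. -/
theorem orbit_count (act : E → Ω → Ω) (h0 : ∀ x, act 0 x = x) (hadd : ∀ e e' x, act e (act e' x) = act (e + e') x)
    (G : Finset Ω) (t : ℕ) :
    (G.filter (fun x => (univ.filter (fun e => act e x ∈ G)).card ≤ t)).card * Fintype.card E ≤
      t * Fintype.card Ω := by
  classical
  set G' := G.filter (fun x => (univ.filter (fun e => act e x ∈ G)).card ≤ t) with hG'
  have h1 : G'.card * Fintype.card E = (G' ×ˢ (univ : Finset E)).card := by rw [card_product, card_univ]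
  rw [h1]
  have h2 : ∀ y ∈ (univ : Finset Ω), ((G' ×ˢ (univ : Finset E)).filter (fun p => act p.2 p.1 = y)).card ≤ t := by
    intro y _
    by_cases hne : ((G' ×ˢ (univ : Finset E)).filter (fun p => act p.2 p.1 = y)).Nonempty
    · obtain ⟨⟨x0, e0⟩, hp⟩ := hne
      rw [mem_filter, mem_product] at hp
      obtain ⟨⟨hx0, -⟩, hy⟩ := hp
      simp only at hx0 hy
      have hx0' := (mem_filter.1 hx0).2
      refine le_trans ?_ hx0'
      refine card_le_card_of_injOn (fun p => e0 - p.2) ?_ ?_
      · rintro ⟨x, e⟩ hp
        rw [mem_coe, mem_filter, mem_product] at hp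
        obtain ⟨⟨hx, -⟩, hxy⟩ := hp
        simp only at hx hxy
        simp only [coe_filter, mem_univ, true_and, Set.mem_setOf_eq]
        have h3 : act (e0 - e) x0 = x := by
          have h4 : act (e0 - e) x0 = act (-e) (act e0 x0) := by rw [hadd]; congr 1; abel
          rw [h4, hy, ← hxy, hadd, neg_add_cancel, h0]
        rw [h3]
        exact (mem_filter.1 hx).1
      · rintro ⟨x, e⟩ hp ⟨x', e'⟩ hp' h
        simp only at h
        have he : e = e' := sub_right_injective h
        subst he
        rw [mem_coe, mem_filter] at hp hp'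
        have h3 : x = x' := by
          have h4 := hp.2.trans hp'.2.symm
          simp only at h4
          have h5 := congrArg (act (-e)) h4
          rwa [hadd, hadd, neg_add_cancel, h0, h0] at h5
        rw [h3]
    · rw [not_nonempty_iff_eq_empty.1 hne, card_empty]
      exact Nat.zero_le _
  have h3 := card_eq_sum_card_fiberwise (s := G' ×ˢ (univ : Finset E)) (t := (univ : Finset Ω))
    (f := fun p => act p.2 p.1) (fun _ _ => mem_coe.2 (mem_univ _))
  rw [h3]
  calc ∑ y ∈ (univ : Finset Ω), ((G' ×ˢ (univ : Finset E)).filter (fun p => act p.2 p.1 = y)).card ≤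
      ∑ _y ∈ (univ : Finset Ω), t := sum_le_sum h2
    _ = t * Fintype.card Ω := by rw [sum_const, card_univ, smul_eq_mul, mul_comm]

/-- The lemma. -/
theorem lemmaD (act : T → E → Ω → Ω) (h0 : ∀ b x, act b 0 x = x)
    (hadd : ∀ b e e' x, act b e (act b e' x) = act b (e + e') x) (G : Finset Ω) (fr : Ω → T → Prop)
    [∀ x, DecidablePred (fr x)] (H : ℕ) (hH : ∀ x ∈ G, H ≤ (univ.filter (fun b => fr x b)).card) (small : Finset E)
    (hin : ∀ x' ∈ G, ((univ : Finset (E × T)).filter (fun p => p.1 ∉ small ∧ act p.2 (-p.1) x' ∈ G ∧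
      fr (act p.2 (-p.1) x') p.2)).card ≤ H) :
    G.card * H * Fintype.card E ≤ 4 * (small.card + 1) * (Fintype.card T * Fintype.card Ω) := by
  classical
  set s := small.card with hs
  -- the pairs
  let P : Finset (Ω × T) := (G ×ˢ univ).filter (fun p => fr p.1 p.2)
  let N : Ω → T → ℕ := fun x b => (univ.filter (fun e => act b e x ∈ G)).card
  have hP : G.card * H ≤ P.card := by
    have h1 : P.card = ∑ x ∈ G, (univ.filter (fun b => fr x b)).card := by
      rw [card_filter, sum_product]
      exact sum_congr rfl fun x _ => by rw [card_filter]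
    rw [h1]
    calc G.card * H = ∑ _x ∈ G, H := by rw [sum_const, smul_eq_mul]
      _ ≤ _ := sum_le_sum hH
  -- the sum of the numbers of arrows
  have hsum : ∑ p ∈ P, N p.1 p.2 ≤ (s + 1) * P.card := by
    have h1 : ∀ p ∈ P, N p.1 p.2 ≤ s + (univ.filter (fun e => e ∉ small ∧ act p.2 e p.1 ∈ G)).card := by
      intro p _
      have h2 : (univ.filter (fun e => act p.2 e p.1 ∈ G)) ⊆
          small ∪ univ.filter (fun e => e ∉ small ∧ act p.2 e p.1 ∈ G) := by
        intro e he
        rw [mem_filter] at he
        rw [mem_union, mem_filter]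
        by_cases h3 : e ∈ small
        · exact Or.inl h3
        · exact Or.inr ⟨mem_univ _, h3, he.2⟩
      exact (card_le_card h2).trans (card_union_le _ _)
    have h2 : ∑ p ∈ P, (univ.filter (fun e => e ∉ small ∧ act p.2 e p.1 ∈ G)).card ≤ G.card * H := by
      -- count the triples
      let A : Finset ((Ω × T) × E) := (P ×ˢ univ).filter (fun q => q.2 ∉ small ∧ act q.1.2 q.2 q.1.1 ∈ G)
      have h3 : ∑ p ∈ P, (univ.filter (fun e => e ∉ small ∧ act p.2 e p.1 ∈ G)).card = A.card := by
        rw [card_filter, sum_product]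
        exact sum_congr rfl fun p _ => by rw [card_filter]
      rw [h3]
      have h4 : A.card = ∑ x' ∈ G, (A.filter (fun q => act q.1.2 q.2 q.1.1 = x')).card :=
        card_eq_sum_card_fiberwise (f := fun q : (Ω × T) × E => act q.1.2 q.2 q.1.1) fun q hq => by
          exact mem_coe.2 (mem_filter.1 (mem_coe.1 hq)).2.2
      rw [h4]
      calc ∑ x' ∈ G, (A.filter (fun q => act q.1.2 q.2 q.1.1 = x')).card ≤ ∑ _x' ∈ G, H := by
            refine sum_le_sum fun x' hx' => le_trans ?_ (hin x' hx')
            refine card_le_card_of_injOn (fun q => (q.2, q.1.2)) ?_ ?_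
            · rintro ⟨⟨x, b⟩, e⟩ hq
              rw [mem_coe, mem_filter, mem_filter, mem_product, mem_filter, mem_product] at hq
              obtain ⟨⟨⟨⟨⟨hxG, -⟩, hfr⟩, -⟩, he, -⟩, hx⟩ := hq
              simp only at hxG hfr he hx
              simp only [coe_filter, mem_univ, true_and, Set.mem_setOf_eq]
              have h5 : act b (-e) x' = x := by rw [← hx, hadd, neg_add_cancel, h0]
              rw [h5]
              exact ⟨he, hxG, hfr⟩
            · rintro ⟨⟨x, b⟩, e⟩ hq ⟨⟨y, b'⟩, e'⟩ hq' h
              simp only [Prod.mk.injEq] at h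
              obtain ⟨he, hb⟩ := h
              subst he hb
              rw [mem_coe, mem_filter] at hq hq'
              have h5 := hq.2.trans hq'.2.symm
              simp only at h5
              have h6 := congrArg (act b (-e)) h5
              rw [hadd, hadd, neg_add_cancel, h0, h0] at h6
              rw [h6]
        _ = G.card * H := by rw [sum_const, smul_eq_mul]
    calc ∑ p ∈ P, N p.1 p.2 ≤ ∑ p ∈ P, (s + (univ.filter (fun e => e ∉ small ∧ act p.2 e p.1 ∈ G)).card) :=
          sum_le_sum h1
      _ = P.card * s + ∑ p ∈ P, (univ.filter (fun e => e ∉ small ∧ act p.2 e p.1 ∈ G)).card := by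
          rw [sum_add_distrib, sum_const, smul_eq_mul]
      _ ≤ P.card * s + P.card := by
          have := h2.trans hP
          omega
      _ = (s + 1) * P.card := by ring
  -- half of the pairs have few arrows
  set t := 2 * (s + 1) with ht
  have hhalf : P.card ≤ 2 * (P.filter (fun p => N p.1 p.2 ≤ t)).card := by
    have h1 := card_filter_add_card_filter_not (s := P) (fun p => N p.1 p.2 ≤ t)
    have h2 : (P.filter (fun p => ¬ N p.1 p.2 ≤ t)).card * t ≤ ∑ p ∈ P, N p.1 p.2 := by
      calc (P.filter (fun p => ¬ N p.1 p.2 ≤ t)).card * t = ∑ _p ∈ P.filter (fun p => ¬ N p.1 p.2 ≤ t), t := by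
            rw [sum_const, smul_eq_mul]
        _ ≤ ∑ p ∈ P.filter (fun p => ¬ N p.1 p.2 ≤ t), N p.1 p.2 :=
            sum_le_sum fun p hp => (not_le.1 (mem_filter.1 hp).2).le
        _ ≤ _ := sum_le_sum_of_subset (filter_subset _ _)
    have h3 : (P.filter (fun p => ¬ N p.1 p.2 ≤ t)).card * 2 ≤ P.card := by
      have h4 := h2.trans hsum
      rw [ht] at h4
      have h5 : (s + 1) * ((P.filter (fun p => ¬ N p.1 p.2 ≤ 2 * (s + 1))).card * 2) ≤ (s + 1) * P.card := by
        calc _ = (P.filter (fun p => ¬ N p.1 p.2 ≤ 2 * (s + 1))).card * (2 * (s + 1)) := by ring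
          _ ≤ _ := h4
      exact Nat.le_of_mul_le_mul_left h5 (Nat.succ_pos s)
    omega
  have hfew : (P.filter (fun p => N p.1 p.2 ≤ t)).card * Fintype.card E ≤ t * (Fintype.card T * Fintype.card Ω) := by
    have h1 : (P.filter (fun p => N p.1 p.2 ≤ t)).card ≤
        ∑ b : T, (G.filter (fun x => (univ.filter (fun e => act b e x ∈ G)).card ≤ t)).card := by
      have h2 : (P.filter (fun p => N p.1 p.2 ≤ t)) ⊆
          ((G ×ˢ (univ : Finset T)).filter (fun p => N p.1 p.2 ≤ t)) :=
        filter_subset_filter _ (filter_subset _ _)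
      refine (card_le_card h2).trans (le_of_eq ?_)
      rw [card_filter, sum_product_right]
      exact sum_congr rfl fun b _ => by rw [card_filter]
    calc (P.filter (fun p => N p.1 p.2 ≤ t)).card * Fintype.card E ≤
        (∑ b : T, (G.filter (fun x => (univ.filter (fun e => act b e x ∈ G)).card ≤ t)).card) * Fintype.card E :=
          Nat.mul_le_mul_right _ h1
      _ = ∑ b : T, (G.filter (fun x => (univ.filter (fun e => act b e x ∈ G)).card ≤ t)).card * Fintype.card E := by
          rw [sum_mul]
      _ ≤ ∑ _b : T, t * Fintype.card Ω :=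
          sum_le_sum fun b _ => orbit_count (act b) (h0 b) (hadd b) G t
      _ = t * (Fintype.card T * Fintype.card Ω) := by
          rw [sum_const, card_univ, smul_eq_mul]
          ring
  calc G.card * H * Fintype.card E ≤ P.card * Fintype.card E := Nat.mul_le_mul_right _ hP
    _ ≤ 2 * (P.filter (fun p => N p.1 p.2 ≤ t)).card * Fintype.card E := Nat.mul_le_mul_right _ hhalf
    _ = 2 * ((P.filter (fun p => N p.1 p.2 ≤ t)).card * Fintype.card E) := by ring
    _ ≤ 2 * (t * (Fintype.card T * Fintype.card Ω)) := Nat.mul_le_mul_left _ hfew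
    _ = _ := by rw [ht]; ring

end Pool.Agent.Helper18.NQ
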