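import Pool.Agent.Helper99.NQ.Defs

/-!
# The bound in one orbit (project NQ, Q3b)
-/

set_option autoImplicit false

namespace Pool.Agent.Helper18.NQ

open Finset Pool.Agent.Helper19.NF Pool.Agent.Helper74.NW Pool.Agent.Helper99.NQ

variable {n D m d S : ℕ} [NeZero m] {F B Z : Type} [Field F] [Fintype F] [AddCommGroup B] [Module F B] [Fintype B]

/-- Q3b, from Lemma D and the bound for the pairs. -/
theorem orbit_bound_of (g : Fin D → Equiv.Perm (Fin n)) (h1 h2 : Fin n → Fin D × Fin m) (cell : Fin n × Fin m → B)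
    (h a : ℕ) (E : Finset (Ch n D m F B)) (V1 V2 : Ch n D m F B → Finset (B × Word D m B))
    (J : Finset (Fin n)) (κ j : ℕ) (hj : j ≤ J.card)
    (hJ1 : ∀ x ∈ E, ∀ u ∈ J, h ≤ (left cell (V1 x) (pos g h1 u)).card)
    (hJ2 : ∀ x ∈ E, ∀ u ∈ J, h ≤ (left cell (V2 x) (pos g h2 u)).card)
    (hh : h ≤ Fintype.card (Word D m B)) (hq : Fintype.card (Word D m B) ≤ h * Fintype.card F) (η : ℝ)
    (hη1 : 1 ≤ η)
    (lemD : ∀ (Dd : (Fin n → Fin d → Word D m B) → ((Fin n → Fin d → F) →+ Ch n D m F B))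
      (U : Ch n D m F B → Fin n → Finset (Word D m B)) (E G : Finset (Ch n D m F B)),
      G ⊆ E → ∀ (J : Finset (Fin n)) (h κ : ℕ) (ρ : ℝ), 0 ≤ ρ → 0 < h → (∀ x ∈ G, ∀ u ∈ J, h ≤ (U x u).card) →
      2 ^ n * ρ ≤ ((h : ℝ) / Fintype.card (Word D m B)) ^ (d * J.card) →
      (∀ x ∈ G, ∀ K ⊆ J, κ ≤ K.card → (inK Dd U E K x : ℝ) ≤ ρ * Fintype.card (Fin n → Fin d → Word D m B)) →
      (G.card : ℝ) ≤ 8 * 2 ^ n * (Fintype.card F : ℝ) ^ (d * κ) *
        ((Fintype.card (Word D m B) : ℝ) / (h * Fintype.card F)) ^ (d * J.card) * Nat.card (Ch n D m F B))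
    (pairs : ∀ K K' : Finset (Fin n), 2 * a ≤ (K ∩ K').card →
      ∑ x ∈ E, (inK (flip (F := F) (d := d) g h1) (fun x u => left cell (V1 x) (pos g h1 u)) E K x : ℝ) *
          inK (flip (F := F) (d := d) g h2) (fun x u => left cell (V2 x) (pos g h2 u)) E K' x ≤
        (Fintype.card F : ℝ) ^ (2 * d * n) * 2 ^ (n + 1) / η ^ (m * a) * Nat.card (Ch n D m F B) *
          (Nat.card (Fin n → Fin d → Word D m B) : ℝ) ^ 2) :
    (E.card : ℝ) ≤ err n m d a κ j (Fintype.card F) ((h : ℝ) / Fintype.card (Word D m B)) η *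
      Nat.card (Ch n D m F B) := by
  classical
  set W : ℝ := (Fintype.card (Word D m B) : ℝ) with hWdef
  set q : ℝ := (Fintype.card F : ℝ) with hqdef
  set N : ℝ := (Nat.card (Ch n D m F B) : ℝ) with hNdef
  set bb : ℝ := (Fintype.card (Fin n → Fin d → Word D m B) : ℝ) with hbbdef
  have hW : 0 < W := by rw [hWdef]; exact Nat.cast_pos.2 Fintype.card_pos
  have hq0 : 0 < q := by rw [hqdef]; exact Nat.cast_pos.2 Fintype.card_pos
  have hbb : 0 < bb := by rw [hbbdef]; exact Nat.cast_pos.2 Fintype.card_pos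
  have hN0 : 0 ≤ N := Nat.cast_nonneg _
  have hbc : (Nat.card (Fin n → Fin d → Word D m B) : ℝ) = bb := by rw [hbbdef, Nat.card_eq_fintype_card]
  have hhp : 0 < h := by
    rcases Nat.eq_zero_or_pos h with h0 | h0
    · rw [h0, zero_mul] at hq
      have : 0 < Fintype.card (Word D m B) := Fintype.card_pos
      omega
    · exact h0
  have hhr : (0 : ℝ) < h := Nat.cast_pos.2 hhp
  set r : ℝ := (h : ℝ) / W with hrdef
  have hr0 : 0 < r := div_pos hhr hW
  have hr1 : r ≤ 1 := by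
    rw [hrdef, div_le_one hW]
    exact Nat.cast_le.2 hh
  have hqr : 1 ≤ q * r := by
    rw [hrdef, ← mul_div_assoc, le_div_iff₀ hW, one_mul]
    have h1 : (Fintype.card (Word D m B) : ℝ) ≤ ((h * Fintype.card F : ℕ) : ℝ) := Nat.cast_le.2 hq
    rw [Nat.cast_mul] at h1
    calc W ≤ (h : ℝ) * q := h1
      _ = q * h := mul_comm _ _
  have hWr : W / (h * q) = 1 / (q * r) := by
    rw [hrdef]
    field_simp
  have hη0 : (0 : ℝ) < η := lt_of_lt_of_le one_pos hη1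
  set ρ : ℝ := r ^ (d * n) / 2 ^ n with hρdef
  have hρ0 : 0 < ρ := by positivity
  have hρJ : ∀ K : Finset (Fin n), 2 ^ n * ρ ≤ r ^ (d * K.card) := by
    intro K
    rw [hρdef, mul_div_cancel₀ _ (by positivity)]
    refine pow_le_pow_of_le_one hr0.le hr1 (Nat.mul_le_mul_left d ?_)
    simpa using Finset.card_le_univ K
  let In1 : Finset (Fin n) → Ch n D m F B → ℝ := fun K x =>
    (inK (flip (F := F) (d := d) g h1) (fun x u => left cell (V1 x) (pos g h1 u)) E K x : ℝ)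
  let In2 : Finset (Fin n) → Ch n D m F B → ℝ := fun K x =>
    (inK (flip (F := F) (d := d) g h2) (fun x u => left cell (V2 x) (pos g h2 u)) E K x : ℝ)
  let E3 : Finset (Fin n) × Finset (Fin n) → Finset (Ch n D m F B) := fun p =>
    E.filter (fun x => ρ * bb < In1 p.1 x ∧ ρ * bb < In2 p.2 x)
  let GA : Finset (Ch n D m F B) := E.filter (fun x => ∀ K ⊆ J, κ ≤ K.card → In1 K x ≤ ρ * bb)
  let GB : Finset (Fin n) → Finset (Ch n D m F B) := fun K0 =>
    E.filter (fun x => ∀ K ⊆ K0, 2 * a ≤ K.card → In2 K x ≤ ρ * bb)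
  let Pa : Finset (Finset (Fin n) × Finset (Fin n)) := univ.filter (fun p => 2 * a ≤ (p.1 ∩ p.2).card)
  let Ks : Finset (Finset (Fin n)) := J.powerset.filter (fun K => κ ≤ K.card)
  -- the cover
  have hcov : E ⊆ (Pa.biUnion E3 ∪ GA) ∪ Ks.biUnion GB := by
    intro x hx
    by_cases hA : x ∈ GA
    · exact mem_union_left _ (mem_union_right _ hA)
    · have h3 : ∃ K0 ⊆ J, κ ≤ K0.card ∧ ρ * bb < In1 K0 x := by
        by_contra hcon
        push Not at hcon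
        exact hA (mem_filter.2 ⟨hx, fun K hK hc => hcon K hK hc⟩)
      obtain ⟨K0, hK0, hc0, h4⟩ := h3
      by_cases hB : ∀ K ⊆ K0, 2 * a ≤ K.card → In2 K x ≤ ρ * bb
      · refine mem_union_right _ (mem_biUnion.2 ⟨K0, mem_filter.2 ⟨mem_powerset.2 hK0, hc0⟩, mem_filter.2 ⟨hx, hB⟩⟩)
      · push Not at hB
        obtain ⟨K, hK, hcK, h5⟩ := hB
        refine mem_union_left _ (mem_union_left _ (mem_biUnion.2 ⟨(K0, K), mem_filter.2 ⟨mem_univ _, ?_⟩,
          mem_filter.2 ⟨hx, h4, h5⟩⟩))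
        show 2 * a ≤ (K0 ∩ K).card
        rwa [inter_eq_right.2 hK]
  -- the three parts
  have hE3 : ∀ p ∈ Pa, ((E3 p).card : ℝ) ≤ 2 ^ (3 * n + 1) * (q / r) ^ (2 * d * n) / η ^ (m * a) * N := by
    intro p hp
    have h6 := pairs p.1 p.2 (mem_filter.1 hp).2
    have h7 : ((E3 p).card : ℝ) * (ρ * bb) ^ 2 ≤ ∑ x ∈ E, In1 p.1 x * In2 p.2 x := by
      calc ((E3 p).card : ℝ) * (ρ * bb) ^ 2 = ∑ _x ∈ E3 p, (ρ * bb) ^ 2 := by rw [sum_const, nsmul_eq_mul]
        _ ≤ ∑ x ∈ E3 p, In1 p.1 x * In2 p.2 x := by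
            refine sum_le_sum fun x hx => ?_
            have hx' := (mem_filter.1 hx).2
            rw [pow_two]
            exact mul_le_mul hx'.1.le hx'.2.le (by positivity) (le_trans (by positivity) hx'.1.le)
        _ ≤ ∑ x ∈ E, In1 p.1 x * In2 p.2 x := by
            refine sum_le_sum_of_subset_of_nonneg (filter_subset _ _) fun x _ _ => ?_
            exact mul_nonneg (Nat.cast_nonneg _) (Nat.cast_nonneg _)
    rw [hbc] at h6
    have h8 : ((E3 p).card : ℝ) * (ρ * bb) ^ 2 ≤ q ^ (2 * d * n) * 2 ^ (n + 1) / η ^ (m * a) * N * bb ^ 2 :=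
      h7.trans h6
    have h9 : ((E3 p).card : ℝ) * ρ ^ 2 ≤ q ^ (2 * d * n) * 2 ^ (n + 1) / η ^ (m * a) * N := by
      have h10 : 0 < bb ^ 2 := by positivity
      have h11 : (((E3 p).card : ℝ) * ρ ^ 2) * bb ^ 2 ≤
          (q ^ (2 * d * n) * 2 ^ (n + 1) / η ^ (m * a) * N) * bb ^ 2 := by
        calc _ = ((E3 p).card : ℝ) * (ρ * bb) ^ 2 := by ring
          _ ≤ _ := h8
      exact le_of_mul_le_mul_right h11 h10
    have h12 : ((E3 p).card : ℝ) ≤ (q ^ (2 * d * n) * 2 ^ (n + 1) / η ^ (m * a) * N) / ρ ^ 2 := by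
      rw [le_div_iff₀ (by positivity)]
      exact h9
    refine h12.trans (le_of_eq ?_)
    have h13 : ρ ^ 2 = r ^ (2 * d * n) / 2 ^ (2 * n) := by
      rw [hρdef, div_pow, ← pow_mul, ← pow_mul]
      congr 2 <;> ring
    rw [h13, div_pow q r]
    clear_value r
    have h14 : (2 : ℝ) ^ (3 * n + 1) = 2 ^ (n + 1) * 2 ^ (2 * n) := by rw [← pow_add]; congr 1; ring
    rw [h14]
    have h15 : r ^ (2 * d * n) ≠ 0 := (pow_pos hr0 _).ne'
    have h16 : η ^ (m * a) ≠ 0 := (pow_pos hη0 _).ne'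
    field_simp
  have hA : (GA.card : ℝ) ≤ 8 * 2 ^ n * q ^ (d * κ) / (q * r) ^ (d * j) * N := by
    have h6 := lemD (flip (F := F) (d := d) g h1) (fun x u => left cell (V1 x) (pos g h1 u)) E GA (filter_subset _ _)
      J h κ ρ hρ0.le hhp (fun x hx u hu => hJ1 x (mem_filter.1 hx).1 u hu) (hρJ J)
      (fun x hx K hK hc => (mem_filter.1 hx).2 K hK hc)
    refine h6.trans ?_
    rw [hWr, one_div, inv_pow, ← div_eq_mul_inv]
    have h7 : (q * r) ^ (d * j) ≤ (q * r) ^ (d * J.card) := pow_le_pow_right₀ hqr (Nat.mul_le_mul_left d hj)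
    gcongr
  have hB : ∀ K0 ∈ Ks, ((GB K0).card : ℝ) ≤ 8 * 2 ^ n * q ^ (2 * d * a) / (q * r) ^ (d * κ) * N := by
    intro K0 hK0
    have hK1 := mem_powerset.1 (mem_filter.1 hK0).1
    have hK2 := (mem_filter.1 hK0).2
    have h6 := lemD (flip (F := F) (d := d) g h2) (fun x u => left cell (V2 x) (pos g h2 u)) E (GB K0)
      (filter_subset _ _) K0 h (2 * a) ρ hρ0.le hhp (fun x hx u hu => hJ2 x (mem_filter.1 hx).1 u (hK1 hu)) (hρJ K0)
      (fun x hx K hK hc => (mem_filter.1 hx).2 K hK hc)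
    refine h6.trans ?_
    rw [hWr, one_div, inv_pow, ← div_eq_mul_inv]
    have h7 : (q * r) ^ (d * κ) ≤ (q * r) ^ (d * K0.card) := pow_le_pow_right₀ hqr (Nat.mul_le_mul_left d hK2)
    have h8 : d * (2 * a) = 2 * d * a := by ring
    rw [h8]
    gcongr
  -- together
  have hPa : (Pa.card : ℝ) ≤ 2 ^ (2 * n) := by
    have h6 : Pa.card ≤ Fintype.card (Finset (Fin n) × Finset (Fin n)) := card_le_univ _
    rw [Fintype.card_prod, Fintype.card_finset, Fintype.card_fin, ← pow_add, ← two_mul] at h6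
    exact_mod_cast h6
  have hKs : (Ks.card : ℝ) ≤ 2 ^ n := by
    have h6 : Ks.card ≤ Fintype.card (Finset (Fin n)) := card_le_univ _
    rw [Fintype.card_finset, Fintype.card_fin] at h6
    exact_mod_cast h6
  have hcard : (E.card : ℝ) ≤ ∑ p ∈ Pa, ((E3 p).card : ℝ) + GA.card + ∑ K0 ∈ Ks, ((GB K0).card : ℝ) := by
    have h6 := card_le_card hcov
    have h7 := card_union_le (Pa.biUnion E3 ∪ GA) (Ks.biUnion GB)
    have h8 := card_union_le (Pa.biUnion E3) GA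
    have h9 : (Pa.biUnion E3).card ≤ ∑ p ∈ Pa, (E3 p).card := card_biUnion_le
    have h10 : (Ks.biUnion GB).card ≤ ∑ K0 ∈ Ks, (GB K0).card := card_biUnion_le
    have h11 : E.card ≤ ∑ p ∈ Pa, (E3 p).card + GA.card + ∑ K0 ∈ Ks, (GB K0).card := by omega
    exact_mod_cast h11
  have hs1 : ∑ p ∈ Pa, ((E3 p).card : ℝ) ≤ 2 ^ (5 * n + 1) * (q / r) ^ (2 * d * n) / η ^ (m * a) * N := by
    calc ∑ p ∈ Pa, ((E3 p).card : ℝ) ≤ ∑ _p ∈ Pa, 2 ^ (3 * n + 1) * (q / r) ^ (2 * d * n) / η ^ (m * a) * N :=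
          sum_le_sum hE3
      _ = Pa.card * (2 ^ (3 * n + 1) * (q / r) ^ (2 * d * n) / η ^ (m * a) * N) := by rw [sum_const, nsmul_eq_mul]
      _ ≤ 2 ^ (2 * n) * (2 ^ (3 * n + 1) * (q / r) ^ (2 * d * n) / η ^ (m * a) * N) :=
          mul_le_mul_of_nonneg_right hPa (by positivity)
      _ = _ := by
          have h14 : (2 : ℝ) ^ (5 * n + 1) = 2 ^ (2 * n) * 2 ^ (3 * n + 1) := by rw [← pow_add]; congr 1; ring
          rw [h14]
          ring
  have hs2 : ∑ K0 ∈ Ks, ((GB K0).card : ℝ) ≤ 8 * 4 ^ n * q ^ (2 * d * a) / (q * r) ^ (d * κ) * N := by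
    calc ∑ K0 ∈ Ks, ((GB K0).card : ℝ) ≤ ∑ _K0 ∈ Ks, 8 * 2 ^ n * q ^ (2 * d * a) / (q * r) ^ (d * κ) * N :=
          sum_le_sum hB
      _ = Ks.card * (8 * 2 ^ n * q ^ (2 * d * a) / (q * r) ^ (d * κ) * N) := by rw [sum_const, nsmul_eq_mul]
      _ ≤ 2 ^ n * (8 * 2 ^ n * q ^ (2 * d * a) / (q * r) ^ (d * κ) * N) :=
          mul_le_mul_of_nonneg_right hKs (by positivity)
      _ = _ := by
          have h14 : (4 : ℝ) ^ n = 2 ^ n * 2 ^ n := by rw [← mul_pow]; norm_num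
          rw [h14]
          ring
  unfold err
  calc (E.card : ℝ) ≤ _ := hcard
    _ ≤ 2 ^ (5 * n + 1) * (q / r) ^ (2 * d * n) / η ^ (m * a) * N + 8 * 2 ^ n * q ^ (d * κ) / (q * r) ^ (d * j) * N +
        8 * 4 ^ n * q ^ (2 * d * a) / (q * r) ^ (d * κ) * N := add_le_add (add_le_add hs1 hA) hs2
    _ = _ := by ring

end Pool.Agent.Helper18.NQ
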